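import Pool.Agent.W207.PU.SpecA

set_option autoImplicit false

open Complex Filter Topology Set MeasureTheory

namespace Pool.Agent.W469.PU

open Pool.Agent.H24R2.JP (XX)
open W207.PU

theorem XX_eq (s : ℂ) (hs0 : 0 < s.re) (hs1 : s ≠ 1) :
    riemannZeta s = ((Gammaℝ s)⁻¹ * (4 * s * (s - 1))⁻¹) * XX (s - 1 / 2) := by
  have hne : s ≠ 0 := by
    rintro rfl
    simp at hs0
  have hG : Gammaℝ s ≠ 0 := Gammaℝ_ne_zero_of_re_pos hs0
  rw [XX, show (1 / 2 : ℂ) + (s - 1 / 2) = s by ring]
  have h1 := completedRiemannZeta_eq s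
  rw [riemannZeta_def_of_ne_zero hne]
  have h2 : (1 - s) ≠ 0 := sub_ne_zero.2 (Ne.symm hs1)
  have h2' : (s - 1) ≠ 0 := sub_ne_zero.2 hs1
  have h3 : completedRiemannZeta₀ s = completedRiemannZeta s + 1 / s + 1 / (1 - s) := by
    rw [h1]
    ring
  have h4 : (4 * (s - 1 / 2) ^ 2 - 1) * completedRiemannZeta₀ s + 4 =
      4 * s * (s - 1) * completedRiemannZeta s := by
    rw [h3]
    field_simp
    ring
  rw [h4]
  field_simp

theorem xz : S_XZ := by
  intro s him hre0 hre1
  have hs1 : s ≠ 1 := by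
    rintro rfl
    simp at hre1
  have hs0 : s ≠ 0 := by
    rintro rfl
    simp at hre0
  have hG : Gammaℝ s ≠ 0 := Gammaℝ_ne_zero_of_re_pos hre0
  have h2' : (s - 1) ≠ 0 := sub_ne_zero.2 hs1
  have hfac : ((Gammaℝ s)⁻¹ * (4 * s * (s - 1))⁻¹) ≠ 0 := by
    refine mul_ne_zero (inv_ne_zero hG) (inv_ne_zero ?_)
    exact mul_ne_zero (mul_ne_zero (by norm_num) hs0) h2'
  refine ⟨?_, ?_⟩
  · rw [XX_eq s hre0 hs1]
    constructor
    · intro h
      exact (mul_eq_zero.1 h).resolve_left hfac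
    · intro h
      rw [h, mul_zero]
  · have hord : analyticOrderAt riemannZeta s = analyticOrderAt XX (s - 1 / 2) := by
      have hXX : Differentiable ℂ XX := by
        unfold XX
        have := differentiable_completedZeta₀
        fun_prop
      have e1 : analyticOrderAt (XX ∘ fun t => t - 1 / 2) s = analyticOrderAt XX (s - 1 / 2) := by
        refine analyticOrderAt_comp_of_deriv_ne_zero (g := fun t : ℂ => t - 1 / 2) (by fun_prop) ?_
        simp
      have hk : AnalyticAt ℂ (fun t => (Gammaℝ t)⁻¹ * (4 * t * (t - 1))⁻¹) s := by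
        refine AnalyticAt.mul (differentiable_Gammaℝ_inv.analyticAt s) ?_
        refine AnalyticAt.inv (by fun_prop) ?_
        exact mul_ne_zero (mul_ne_zero (by norm_num) hs0) h2'
      have hF : AnalyticAt ℂ (XX ∘ fun t => t - 1 / 2) s :=
        (hXX.comp (by fun_prop)).analyticAt s
      have e2 : riemannZeta =ᶠ[𝓝 s]
          ((fun t => (Gammaℝ t)⁻¹ * (4 * t * (t - 1))⁻¹) * (XX ∘ fun t => t - 1 / 2)) := by
        have hopen : IsOpen {t : ℂ | 0 < t.re ∧ t ≠ 1} :=
          (isOpen_lt continuous_const continuous_re).inter isOpen_ne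
        filter_upwards [hopen.mem_nhds ⟨hre0, hs1⟩] with t ht
        exact XX_eq t ht.1 ht.2
      rw [analyticOrderAt_congr e2, analyticOrderAt_mul hk hF, e1,
        (hk.analyticOrderAt_eq_zero).2 hfac, zero_add]
    rw [analyticOrderNatAt, analyticOrderNatAt, hord]

end Pool.Agent.W469.PU
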